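import Pool.Agent.Helper17.SA.St4
import Pool.Agent.Helper60.SA.M_CH

/-!
# Project SA (MP_21f9f3_al), module CH3: series, with the factors that have property Hit
-/

set_option autoImplicit false

open Equiv Pool.Agent.Helper17.SA
open scoped Pointwise

namespace Pool.Agent.Helper27.SA

open Pool.Agent.Helper60.SA in
theorem pCH3 : StLFT → StLFH → StCH3 := by
  intro hLFT hLFH G _ _ k N _ h0 hle ι _ p hp hinj hstep htop
  have key : ∀ m j, j + m = k → SyncFor (G ⧸ N j) p := by
    intro m
    induction m with
    | zero =>
      intro j hj
      rw [add_zero] at hj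
      subst hj
      exact htop
    | succ m ih =>
      intro j hj
      have hjk : j < k := by omega
      have hle' := hle j hjk
      have hnext := ih (j + 1) (by omega)
      rcases hstep j hjk with ⟨hnil, hst⟩ | ⟨Ω, _, S, _, hsim, hnc, hamp, hiso⟩
      · intro P
        rw [Pool.Agent.Helper88.SL.sync_iff]
        let f : G ⧸ N j →* G ⧸ N (j + 1) :=
          QuotientGroup.map (N j) (N (j + 1)) (MonoidHom.id G) hle'
        have hf : Function.Surjective f := by
          intro y
          obtain ⟨g, rfl⟩ := QuotientGroup.mk'_surjective (N (j + 1)) y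
          exact ⟨QuotientGroup.mk' (N j) g, rfl⟩
        have hker : f.ker = (N (j + 1)).map (QuotientGroup.mk' (N j)) := by
          ext y
          obtain ⟨g, rfl⟩ := QuotientGroup.mk'_surjective (N j) y
          rw [MonoidHom.mem_ker]
          constructor
          · intro h
            exact ⟨g, (QuotientGroup.eq_one_iff g).mp h, rfl⟩
          · rintro ⟨g', hg', h⟩
            rw [← h]
            exact (QuotientGroup.eq_one_iff g').mpr hg'
        have hnil' : Group.IsNilpotent f.ker := by
          rw [hker]
          exact hnil
        exact Pool.Agent.Helper88.SL.lift_one f hf hnil' p hp hinj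
          (fun i => star_elem _ _ (hst i))
          (fun P => (Pool.Agent.Helper88.SL.sync_iff p P).mp (hnext P)) P
      · have hn : ((N (j + 1)).map (QuotientGroup.mk' (N j))).Normal := inferInstance
        have hq : SyncFor ((G ⧸ N j) ⧸ (N (j + 1)).map (QuotientGroup.mk' (N j))) p :=
          sync_iso (QuotientGroup.quotientQuotientEquivQuotient (N j) (N (j + 1)) hle').symm
            p hp hnext
        rcases hamp with hamp | ⟨hhit, hst⟩
        · exact hLFT (G ⧸ N j) ((N (j + 1)).map (QuotientGroup.mk' (N j))) Ω S hsim hnc hamp hiso
            ι p hp hinj hq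
        · exact hLFH (G ⧸ N j) ((N (j + 1)).map (QuotientGroup.mk' (N j))) Ω S hsim hnc hhit hiso
            ι p hp hinj hst hq
  have h1 := key k 0 (Nat.zero_add k)
  exact sync_iso ((QuotientGroup.quotientMulEquivOfEq h0).trans QuotientGroup.quotientBot) p hp h1

end Pool.Agent.Helper27.SA
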