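import Pool.Agent.Helper17.SA.St4
import Pool.Agent.Helper42.SA.M_FI2

/-!
# Project SA (MP_21f9f3_al), module FI3: first final theorem of part 4
-/

set_option autoImplicit false

open Equiv Pool.Agent.Helper17.SA
open scoped Pointwise

namespace Pool.Agent.Helper27.SA

open Pool.Agent.Helper42.SA in
theorem pFI3 : StCH3 → StAMP → StHAL → StSYM → StALT → StSML → StPRD → StISO → StFI3 := by
  intro hCH hAMP hHAL hSYM hALT hSML hPRD hISO
  intro G _ _ k N _ h0 hle ι _ p hp hinj hfac κ _ H _ hH hiso hst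
  have hfin : ∀ c, Finite (H c) := by
    intro c
    obtain ⟨m, h | h⟩ := hH c
    · obtain ⟨e⟩ := h
      exact Finite.of_equiv _ e.symm.toEquiv
    · obtain ⟨e⟩ := h
      exact Finite.of_equiv _ e.symm.toEquiv
  have hQ : ∀ c, Q1 (H c) := by
    intro c
    obtain ⟨m, h | h⟩ := hH c
    · obtain ⟨e⟩ := h
      rcases Nat.lt_or_ge m 5 with hm | hm
      · apply hSML
        rw [Nat.card_congr e.toEquiv, card_perm]
        interval_cases m <;> simp [Nat.factorial]
      · exact hISO (Perm (Fin m)) (H c) ⟨e.symm⟩ (hSYM m hm)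
    · obtain ⟨e⟩ := h
      rcases Nat.lt_or_ge m 5 with hm | hm
      · apply hSML
        rw [Nat.card_congr e.toEquiv]
        exact card_alt_small m (by omega)
      · exact hISO (alternatingGroup (Fin m)) (H c) ⟨e.symm⟩ (hALT m hm)
  have hP := hPRD κ H hQ
  obtain ⟨e⟩ := hiso
  have hQk : Q1 (G ⧸ N k) := hISO (∀ c, H c) (G ⧸ N k) ⟨e.symm⟩ hP
  have htop := hQk ι p hp hinj hst
  refine hCH G k N h0 hle ι p hp hinj ?_ htop
  intro j hj
  rcases hfac j hj with h | ⟨Ω, hΩ, m, hm, hN⟩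
  · exact Or.inl h
  · right
    have hm5 : ∀ ω, 5 ≤ m ω := by
      intro ω
      rcases hm with h | ⟨h, _⟩
      · rcases h ω with h | h <;> omega
      · rcases h ω with h | h | h <;> omega
    refine ⟨Ω, hΩ, fun ω => alternatingGroup (Fin (m ω)), fun ω => inferInstance, ?_, ?_, ?_, hN⟩
    · intro ω
      exact alt_simple (m ω) (hm5 ω)
    · intro ω
      exact alt_noncomm (m ω) (hm5 ω)
    · rcases hm with h | ⟨h, hs⟩
      · exact Or.inl (fun ω => hAMP (m ω) (h ω))
      · exact Or.inr ⟨fun ω => hHAL (m ω) (h ω), hs⟩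

end Pool.Agent.Helper27.SA
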